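import Pool.Agent.H82.KT.TC

/-!
# KTM (row of ktn_modules): affine functions with many values near few points, two ends
-/

namespace Pool.Agent.H44.KTN

open Pool.Agent.H82.KT Finset

theorem aux_pow (F T y1 y2 y3 y4 y5 y6 : ℝ) (hT : T ≠ 0) :
    F * (y1 ^ 2 * y2 * y3 * y4 * y5 * y6) = F * T ^ 7 * ((y1 / T) ^ 2 * (y2 / T) * (y3 / T) *
      (y4 / T) * (y5 / T) * (y6 / T)) := by
  field_simp

open scoped Classical in
theorem pf_KTM (hCNT : T_CNT) (hPSM : T_PSM) (hQUA : T_QUA) : T_KTM := by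
  intro ι _ τ TT P V h I Y m J κ ω H E L Θ μ f hJ hκ hω hω1 hH hE hL hΘ hμ hf hbig hdiam hY hg
    hpair hfl
  have hJ0 : 0 < J := by linarith
  have hH0 : 0 < H := by linarith
  set ρ : ℝ := ω ^ 3 * κ ^ 2 / (216 * H ^ 2) with hρdef
  have hρ : 0 < ρ := by positivity
  have hρ2 : 2 ≤ ρ * ω ^ 3 * J := by
    have e : ρ * ω ^ 3 * J = ω ^ 6 * κ ^ 2 * J / (216 * H ^ 2) := by
      rw [hρdef]; field_simp
    rw [e, le_div_iff₀ (by positivity)]
    linarith
  have hsm : 216 * H ^ 2 ≤ ω ^ 3 * κ ^ 2 * J := by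
    have h1 : ω ^ 6 ≤ ω ^ 3 := pow_le_pow_of_le_one hω.le hω1 (by norm_num)
    have h2 : ω ^ 6 * (κ ^ 2 * J) ≤ ω ^ 3 * (κ ^ 2 * J) :=
      mul_le_mul_of_nonneg_right h1 (by positivity)
    nlinarith [sq_nonneg H]
  have hc : 2 / (ρ * ω ^ 2) = 432 * H ^ 2 / (ω ^ 5 * κ ^ 2) := by
    rw [hρdef]; field_simp; norm_num
  set F : ℝ := (32 * (E + L) / ω ^ 2) ^ Fintype.card ι * f * μ ^ 3 * (1 / ω) ^ (2 * m) *
    (2 / (ρ * ω ^ 2)) ^ m with hFdef
  have hF0 : 0 ≤ F := by
    have : 0 ≤ E + L := by linarith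
    positivity
  set K : ℝ := (F * Θ ^ 7) ^ ((1 : ℝ) / 4) with hKdef
  have hK0 : 0 ≤ K := Real.rpow_nonneg (by positivity) _
  have hK4 : K ^ 4 = F * Θ ^ 7 := by
    rw [hKdef, ← Real.rpow_natCast, ← Real.rpow_mul (by positivity)]
    norm_num
  have hsix : ∀ s ∈ I, ∀ x ∈ I, ∀ a ∈ I, ∀ b ∈ I, ∀ a' ∈ I, ∀ b' ∈ I,
      ∀ u ∈ six s x a b a' b', u ∈ I := by
    intro s hs x hx a ha b hb a' ha' b' hb' u hu
    simp only [six, mem_insert, mem_singleton] at hu
    rcases hu with rfl | rfl | rfl | rfl | rfl | rfl <;> assumption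
  set G : ℤ → ℤ → ℤ → ℤ → ℤ → ℤ → Finset τ := fun s x a b a' b' =>
    TT.filter (fun g => ∀ u ∈ six s x a b a' b', h g u ≠ 0) with hGdef
  have hN : ∀ s ∈ I, ∀ x ∈ I, ∀ a ∈ I, ∀ b ∈ I, ∀ a' ∈ I, ∀ b' ∈ I, Pat ω ρ J s x a b a' b' →
      0 ≤ ((G s x a b a' b').card : ℝ) ∧
      ((G s x a b a' b').card : ℝ) ^ 4 ≤ K ^ 4 * ((((Y s).card : ℝ) / Θ) ^ 2 *
        (((Y x).card : ℝ) / Θ) * (((Y a).card : ℝ) / Θ) * (((Y b).card : ℝ) / Θ) *
        (((Y a').card : ℝ) / Θ) * (((Y b').card : ℝ) / Θ)) := by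
    intro s hs x hx a ha b hb a' ha' b' hb' hpat
    refine ⟨Nat.cast_nonneg _, ?_⟩
    have hs6 := hsix s hs x hx a ha b hb a' ha' b' hb'
    have key := hQUA ι τ (G s x a b a' b') P V Y m J E L ω ρ μ f s x a b a' b' hJ0 hE hL hω hω1
      hρ hρ2 hμ hf (fun u hu v hv => hdiam u (hs6 u hu) v (hs6 v hv)) hpat
      (by
        intro g hgG
        have hg' := mem_filter.mp hgG
        refine ⟨(hg g hg'.1).1, fun u hu => ?_⟩
        exact ((hg g hg'.1).2.1 u (hs6 u hu)).2.2 (hg'.2 u hu))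
      (by
        intro u hu v hv r hr hruv y hy y' hy'
        refine le_trans ?_ (hpair u (hs6 u hu) v (hs6 v hv) r hr hruv y hy y' hy')
        exact_mod_cast card_le_card (filter_subset_filter _ (filter_subset _ _)))
      (by
        intro w
        refine le_trans ?_ (hfl w)
        exact_mod_cast card_le_card (filter_subset_filter _ (filter_subset _ _)))
    refine key.trans (le_of_eq ?_)
    rw [hK4]
    exact aux_pow _ _ _ _ _ _ _ _ hΘ.ne'
  have hPS := hPSM I (fun u => ((Y u).card : ℝ) / Θ)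
    (fun s x a b a' b' => ((G s x a b a' b').card : ℝ)) J ω ρ K hJ hω hω1 hK0 hdiam
    (fun u _ => by positivity)
    (by
      rw [← sum_div, div_le_iff₀ hΘ]
      linarith)
    hN
  -- the patterns of one function
  have hone : ∀ g ∈ TT, ω ^ 2 * κ ^ 6 * J ^ 5 / 16 ≤
      ∑ s ∈ I, ∑ x ∈ I, ∑ a ∈ I, ∑ b ∈ I, ∑ a' ∈ I, ∑ b' ∈ I,
        (if Pat ω ρ J s x a b a' b' then
          H ^ 6 * (if g ∈ G s x a b a' b' then (1 : ℝ) else 0) else 0) := by
    intro g hgT
    obtain ⟨_, hgh, hgκ, hge⟩ := hg g hgT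
    have h1 := hCNT I (h g) J κ ω H hJ hκ hω hω1 hH hsm hdiam
      (fun u hu => ⟨(hgh u hu).1, (hgh u hu).2.1⟩) hgκ hge
    refine h1.trans ?_
    refine sum_le_sum fun s hs => sum_le_sum fun x hx => sum_le_sum fun a ha =>
      sum_le_sum fun b hb => sum_le_sum fun a' ha' => sum_le_sum fun b' hb' => ?_
    rw [← hρdef]
    by_cases hp : Pat ω ρ J s x a b a' b'
    · rw [if_pos hp, if_pos hp]
      by_cases hG : g ∈ G s x a b a' b'
      · rw [if_pos hG, mul_one]
        have b1 := hgh s hs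
        have b2 := hgh x hx
        have b3 := hgh a ha
        have b4 := hgh b hb
        have b5 := hgh a' ha'
        have b6 := hgh b' hb'
        calc h g s * h g x * h g a * h g b * h g a' * h g b' ≤ H * H * H * H * H * H := by
              have p1 : 0 ≤ h g s * h g x := mul_nonneg b1.1 b2.1
              have p2 : 0 ≤ h g s * h g x * h g a := mul_nonneg p1 b3.1
              have p3 : 0 ≤ h g s * h g x * h g a * h g b := mul_nonneg p2 b4.1
              have p4 : 0 ≤ h g s * h g x * h g a * h g b * h g a' := mul_nonneg p3 b5.1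
              have q1 : h g s * h g x ≤ H * H := mul_le_mul b1.2.1 b2.2.1 b2.1 hH0.le
              have q2 : h g s * h g x * h g a ≤ H * H * H :=
                mul_le_mul q1 b3.2.1 b3.1 (by positivity)
              have q3 : h g s * h g x * h g a * h g b ≤ H * H * H * H :=
                mul_le_mul q2 b4.2.1 b4.1 (by positivity)
              have q4 : h g s * h g x * h g a * h g b * h g a' ≤ H * H * H * H * H :=
                mul_le_mul q3 b5.2.1 b5.1 (by positivity)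
              exact mul_le_mul q4 b6.2.1 b6.1 (by positivity)
          _ = H ^ 6 := by ring
      · rw [if_neg hG, mul_zero]
        have hex : ∃ u ∈ six s x a b a' b', h g u = 0 := by
          by_contra hcon
          push Not at hcon
          exact hG (mem_filter.mpr ⟨hgT, hcon⟩)
        obtain ⟨u, hu, hu0⟩ := hex
        simp only [six, mem_insert, mem_singleton] at hu
        rcases hu with rfl | rfl | rfl | rfl | rfl | rfl <;> simp [hu0]
    · rw [if_neg hp, if_neg hp]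
  have hsum : (TT.card : ℝ) * (ω ^ 2 * κ ^ 6 * J ^ 5 / 16) ≤ H ^ 6 * (777 * K * J ^ 5 / ω) := by
    calc (TT.card : ℝ) * (ω ^ 2 * κ ^ 6 * J ^ 5 / 16)
        = ∑ _g ∈ TT, (ω ^ 2 * κ ^ 6 * J ^ 5 / 16) := by rw [sum_const, nsmul_eq_mul]
      _ ≤ ∑ g ∈ TT, ∑ s ∈ I, ∑ x ∈ I, ∑ a ∈ I, ∑ b ∈ I, ∑ a' ∈ I, ∑ b' ∈ I,
          (if Pat ω ρ J s x a b a' b' then
            H ^ 6 * (if g ∈ G s x a b a' b' then (1 : ℝ) else 0) else 0) := sum_le_sum hone
      _ = ∑ s ∈ I, ∑ x ∈ I, ∑ a ∈ I, ∑ b ∈ I, ∑ a' ∈ I, ∑ b' ∈ I, ∑ g ∈ TT,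
          (if Pat ω ρ J s x a b a' b' then
            H ^ 6 * (if g ∈ G s x a b a' b' then (1 : ℝ) else 0) else 0) := by
          rw [sum_comm]
          refine sum_congr rfl fun s _ => ?_
          rw [sum_comm]
          refine sum_congr rfl fun x _ => ?_
          rw [sum_comm]
          refine sum_congr rfl fun a _ => ?_
          rw [sum_comm]
          refine sum_congr rfl fun b _ => ?_
          rw [sum_comm]
          refine sum_congr rfl fun a' _ => ?_
          rw [sum_comm]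
      _ = H ^ 6 * ∑ s ∈ I, ∑ x ∈ I, ∑ a ∈ I, ∑ b ∈ I, ∑ a' ∈ I, ∑ b' ∈ I,
          (if Pat ω ρ J s x a b a' b' then ((G s x a b a' b').card : ℝ) else 0) := by
          simp only [mul_sum]
          refine sum_congr rfl fun s _ => sum_congr rfl fun x _ => sum_congr rfl fun a _ =>
            sum_congr rfl fun b _ => sum_congr rfl fun a' _ => sum_congr rfl fun b' _ => ?_
          by_cases hp : Pat ω ρ J s x a b a' b'
          · simp only [if_pos hp]
            rw [← mul_sum]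
            congr 1
            rw [sum_ite_mem, sum_const, nsmul_eq_mul, mul_one]
            congr 2
            exact inter_eq_right.mpr (filter_subset _ _)
          · simp only [if_neg hp, sum_const_zero, mul_zero]
      _ ≤ H ^ 6 * (777 * K * J ^ 5 / ω) := mul_le_mul_of_nonneg_left hPS (by positivity)
  have hfin : (TT.card : ℝ) * (ω ^ 3 * κ ^ 6) ≤ 12432 * H ^ 6 * K := by
    have hJ5 : 0 < J ^ 5 := by positivity
    have h1 : (TT.card : ℝ) * (ω ^ 3 * κ ^ 6) * J ^ 5 ≤ 12432 * H ^ 6 * K * J ^ 5 := by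
      have h2 := mul_le_mul_of_nonneg_right hsum (show 0 ≤ 16 * ω by positivity)
      have e1 : (TT.card : ℝ) * (ω ^ 2 * κ ^ 6 * J ^ 5 / 16) * (16 * ω) =
          (TT.card : ℝ) * (ω ^ 3 * κ ^ 6) * J ^ 5 := by ring
      have e2 : H ^ 6 * (777 * K * J ^ 5 / ω) * (16 * ω) = 12432 * H ^ 6 * K * J ^ 5 := by
        field_simp; ring
      rw [e1, e2] at h2
      exact h2
    exact le_of_mul_le_mul_right h1 hJ5
  have h4 := pow_le_pow_left₀ (by positivity) hfin 4
  calc (TT.card : ℝ) ^ 4 * (ω ^ 12 * κ ^ 24) = ((TT.card : ℝ) * (ω ^ 3 * κ ^ 6)) ^ 4 := by ring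
    _ ≤ (12432 * H ^ 6 * K) ^ 4 := h4
    _ = 12432 ^ 4 * H ^ 24 * K ^ 4 := by ring
    _ = 12432 ^ 4 * H ^ 24 * F * Θ ^ 7 := by rw [hK4]; ring
    _ ≤ 2 ^ 56 * H ^ 24 * F * Θ ^ 7 := by
        have : (12432 : ℝ) ^ 4 ≤ 2 ^ 56 := by norm_num
        gcongr
    _ = _ := by rw [hFdef, hc]

end Pool.Agent.H44.KTN
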